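import Mathlib

/-!
# Inverse limits of finite truncation systems and lifting of Markov operators (block KHAT)
-/

set_option autoImplicit false

namespace Pool.CE74

open Filter Topology Set

/-- A truncation system on a set `S`: commuting idempotent maps `tr n` with finite range, every
element being fixed by some `tr n`. -/
structure TrSys (S : Type) where
  tr : ℕ → S → S
  tr_tr : ∀ m n z, tr m (tr n z) = tr (min m n) z
  fin : ∀ n, (Set.range (tr n)).Finite
  ex : ∀ z, ∃ n, tr n z = z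

/-- The inverse limit. -/
@[ext] structure Khat {S : Type} (T : TrSys S) : Type where
  co : ℕ → S
  tr_co : ∀ {m n : ℕ}, m ≤ n → T.tr m (co n) = co m

/-! ## Part 1: no topology -/

section Algebra

variable {S : Type} {T : TrSys S}

theorem TrSys.countable (T : TrSys S) : Countable S := by
  have h1 : (⋃ n, Set.range (T.tr n)) = Set.univ := by
    apply Set.eq_univ_of_forall
    intro z
    obtain ⟨n, hn⟩ := T.ex z
    exact Set.mem_iUnion.2 ⟨n, ⟨z, hn⟩⟩
  have h2 : (Set.univ : Set S).Countable := by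
    rw [← h1]
    exact Set.countable_iUnion (fun n => (T.fin n).countable)
  exact Set.countable_univ_iff.1 h2

theorem TrSys.tr_idem (T : TrSys S) (n : ℕ) (z : S) : T.tr n (T.tr n z) = T.tr n z := by
  rw [T.tr_tr, min_self]

theorem TrSys.tr_of_le (T : TrSys S) {n m : ℕ} (h : n ≤ m) {z : S} (hz : T.tr n z = z) :
    T.tr m z = z := by
  rw [← hz, T.tr_tr, min_eq_right h]

theorem Khat.tr_co_self (x : Khat T) (n : ℕ) : T.tr n (x.co n) = x.co n := x.tr_co le_rfl

theorem Khat.tr_co' (x : Khat T) {m n : ℕ} (h : n ≤ m) : T.tr m (x.co n) = x.co n :=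
  T.tr_of_le h (x.tr_co_self n)

theorem Khat.ext' {x y : Khat T} (h : ∀ n, x.co n = y.co n) : x = y :=
  Khat.ext (funext h)

variable (T) in
/-- The embedding of `S`. -/
def iota (z : S) : Khat T :=
  ⟨fun n => T.tr n z, fun {m n} h => by rw [T.tr_tr, min_eq_left h]⟩

theorem iota_co (z : S) (n : ℕ) : (iota T z).co n = T.tr n z := rfl

theorem iota_injective : Function.Injective (iota T) := by
  intro z w h
  obtain ⟨n, hn⟩ := T.ex z
  obtain ⟨m, hm⟩ := T.ex w
  have h1 : (iota T z).co (max n m) = (iota T w).co (max n m) := by rw [h]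
  rwa [iota_co, iota_co, T.tr_of_le (le_max_left _ _) hn, T.tr_of_le (le_max_right _ _) hm] at h1

theorem Khat.iota_co_eq_of_le (x : Khat T) {m n : ℕ} (h : m ≤ n) :
    (iota T (x.co n)).co m = x.co m := by
  rw [iota_co, x.tr_co h]

variable (T) in
/-- uniformly approximable by truncations -/
def UC (φ : S → ℝ) : Prop := ∀ ε > 0, ∃ n₀, ∀ n, n₀ ≤ n → ∀ z, |φ z - φ (T.tr n z)| ≤ ε

theorem UC_cyl {φ : S → ℝ} {n : ℕ} (h : ∀ z, φ (T.tr n z) = φ z) : UC T φ := by
  intro ε hε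
  refine ⟨n, fun m hm z => ?_⟩
  have h1 : φ (T.tr m z) = φ z := by
    rw [← h (T.tr m z), T.tr_tr, min_eq_left hm, h]
  rw [h1, sub_self, abs_zero]
  exact hε.le

theorem UC.add {φ ψ : S → ℝ} (h1 : UC T φ) (h2 : UC T ψ) : UC T (φ + ψ) := by
  intro ε hε
  obtain ⟨n1, h1⟩ := h1 (ε / 2) (by positivity)
  obtain ⟨n2, h2⟩ := h2 (ε / 2) (by positivity)
  refine ⟨max n1 n2, fun n hn z => ?_⟩
  have a1 := h1 n ((le_max_left _ _).trans hn) z
  have a2 := h2 n ((le_max_right _ _).trans hn) z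
  have : (φ + ψ) z - (φ + ψ) (T.tr n z) = (φ z - φ (T.tr n z)) + (ψ z - ψ (T.tr n z)) := by
    simp only [Pi.add_apply]; ring
  rw [this]
  exact (abs_add_le _ _).trans (by linarith)

theorem UC.smul {φ : S → ℝ} (c : ℝ) (h : UC T φ) : UC T (c • φ) := by
  intro ε hε
  obtain ⟨n1, h1⟩ := h (ε / (|c| + 1)) (by positivity)
  refine ⟨n1, fun n hn z => ?_⟩
  have a1 := h1 n hn z
  have : (c • φ) z - (c • φ) (T.tr n z) = c * (φ z - φ (T.tr n z)) := by
    simp only [Pi.smul_apply, smul_eq_mul]; ring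
  rw [this, abs_mul]
  calc |c| * |φ z - φ (T.tr n z)| ≤ |c| * (ε / (|c| + 1)) := by gcongr
    _ ≤ (|c| + 1) * (ε / (|c| + 1)) := by gcongr; linarith
    _ = ε := by field_simp

theorem UC.cauchy {φ : S → ℝ} (h : UC T φ) (x : Khat T) : CauchySeq (fun n => φ (x.co n)) := by
  rw [Metric.cauchySeq_iff']
  intro ε hε
  obtain ⟨n₀, hn⟩ := h (ε / 2) (by positivity)
  refine ⟨n₀, fun m hm => ?_⟩
  rw [Real.dist_eq]
  have := hn n₀ le_rfl (x.co m)
  rw [x.tr_co hm] at this
  linarith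

variable (T) in
/-- Markov operators on functions on `S` commuting with the truncations. -/
structure Mk (G : (S → ℝ) →ₗ[ℝ] (S → ℝ)) : Prop where
  pos : ∀ φ : S → ℝ, (∀ z, 0 ≤ φ z) → ∀ z, 0 ≤ G φ z
  one : ∀ z, G (fun _ => 1) z = 1
  comm : ∀ n (φ : S → ℝ) z, G (fun w => φ (T.tr n w)) z = G φ (T.tr n z)

theorem Mk.mono {G : (S → ℝ) →ₗ[ℝ] (S → ℝ)} (h : Mk T G) {φ ψ : S → ℝ} (hle : ∀ z, φ z ≤ ψ z)
    (z : S) : G φ z ≤ G ψ z := by
  have h1 := h.pos (ψ - φ) (fun z => by simpa using hle z) z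
  rw [map_sub] at h1
  simpa using h1

theorem Mk.const {G : (S → ℝ) →ₗ[ℝ] (S → ℝ)} (h : Mk T G) (c : ℝ) (z : S) :
    G (fun _ => c) z = c := by
  have h1 : (fun _ : S => c) = c • (fun _ : S => (1 : ℝ)) := by ext; simp
  rw [h1, map_smul]
  simp [h.one]

theorem Mk.abs_le {G : (S → ℝ) →ₗ[ℝ] (S → ℝ)} (h : Mk T G) {φ ψ : S → ℝ}
    (hle : ∀ z, |φ z| ≤ ψ z) (z : S) : |G φ z| ≤ G ψ z := by
  rw [_root_.abs_le]
  constructor
  · have h1 := h.mono (φ := -ψ) (ψ := φ) (fun z => by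
      have := (_root_.abs_le.1 (hle z)).1
      simpa using this) z
    rw [map_neg] at h1
    simpa using h1
  · exact h.mono (fun z => (_root_.abs_le.1 (hle z)).2) z

theorem Mk.abs_le_const {G : (S → ℝ) →ₗ[ℝ] (S → ℝ)} (h : Mk T G) {φ : S → ℝ} {M : ℝ}
    (hle : ∀ z, |φ z| ≤ M) (z : S) : |G φ z| ≤ M := by
  have h1 := h.abs_le (ψ := fun _ => M) hle z
  rwa [h.const] at h1

theorem Mk.UC {G : (S → ℝ) →ₗ[ℝ] (S → ℝ)} (h : Mk T G) {φ : S → ℝ} (hφ : UC T φ) :
    UC T (G φ) := by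
  intro ε hε
  obtain ⟨n₀, hn⟩ := hφ ε hε
  refine ⟨n₀, fun n hnn z => ?_⟩
  have h1 : G φ z - G φ (T.tr n z) = G (φ - fun w => φ (T.tr n w)) z := by
    rw [map_sub]
    simp [h.comm]
  rw [h1]
  exact h.abs_le_const (fun w => hn n hnn w) z

end Algebra

/-! ## Part 2: the compact space -/

section Top

variable {S : Type} [TopologicalSpace S] {T : TrSys S}

instance : TopologicalSpace (Khat T) := TopologicalSpace.induced Khat.co inferInstance

theorem Khat.isEmbedding_co : IsEmbedding (Khat.co : Khat T → ℕ → S) :=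
  ⟨⟨rfl⟩, fun _ _ h => Khat.ext h⟩

theorem Khat.continuous_co (n : ℕ) : Continuous (fun x : Khat T => x.co n) :=
  (continuous_apply n).comp Khat.isEmbedding_co.continuous

/-- neighbourhoods: every neighbourhood of `x` contains a cylinder. -/
theorem Khat.exists_cyl (x : Khat T) {U : Set (Khat T)} (hU : U ∈ 𝓝 x) :
    ∃ n, ∀ y : Khat T, y.co n = x.co n → y ∈ U := by
  have h1 : 𝓝 x = comap (Khat.co : Khat T → (ℕ → S)) (𝓝 x.co) := nhds_induced _ _
  rw [h1, mem_comap] at hU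
  obtain ⟨V, hV, hVU⟩ := hU
  rw [nhds_pi, Filter.mem_pi] at hV
  obtain ⟨I, hI, t, ht, htV⟩ := hV
  obtain ⟨n, hn⟩ := hI.bddAbove
  refine ⟨n, fun y hy => hVU (htV ?_)⟩
  intro i hi
  have hin : i ≤ n := hn hi
  have h2 : y.co i = x.co i := by
    rw [← y.tr_co hin, ← x.tr_co hin, hy]
  rw [h2]
  exact mem_of_mem_nhds (ht i)

variable [DiscreteTopology S]

theorem Khat.isOpen_cyl (n : ℕ) (s : S) : IsOpen {y : Khat T | y.co n = s} :=
  (isOpen_discrete ({s} : Set S)).preimage (Khat.continuous_co (T := T) n)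

instance : CompactSpace (Khat T) := by
  have hK : IsCompact (Set.pi Set.univ (fun n : ℕ => (Set.range (T.tr n)))) :=
    isCompact_univ_pi (fun n => (T.fin n).isCompact)
  have hC : IsClosed {x : ℕ → S | ∀ m n, m ≤ n → T.tr m (x n) = x m} := by
    have h0 : {x : ℕ → S | ∀ m n, m ≤ n → T.tr m (x n) = x m} =
        ⋂ m, ⋂ n, ⋂ (_ : m ≤ n), {x : ℕ → S | T.tr m (x n) = x m} := by
      ext x; simp
    rw [h0]
    refine isClosed_iInter (fun m => isClosed_iInter (fun n => isClosed_iInter (fun _ => ?_)))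
    have h1 : Continuous (fun x : ℕ → S => T.tr m (x n)) :=
      (continuous_of_discreteTopology (f := T.tr m)).comp (continuous_apply n)
    exact isClosed_eq h1 (continuous_apply m)
  have hs : {x : ℕ → S | ∀ m n, m ≤ n → T.tr m (x n) = x m} ⊆
      Set.pi Set.univ (fun n : ℕ => (Set.range (T.tr n))) := by
    intro x hx n _
    exact ⟨x n, hx n n le_rfl⟩
  have hr : Set.range (Khat.co : Khat T → ℕ → S) =
      {x : ℕ → S | ∀ m n, m ≤ n → T.tr m (x n) = x m} := by
    ext x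
    constructor
    · rintro ⟨y, rfl⟩ m n h
      exact y.tr_co h
    · intro h
      exact ⟨⟨x, fun {m n} hmn => h m n hmn⟩, rfl⟩
  have hcomp : IsCompact (Set.range (Khat.co : Khat T → ℕ → S)) := by
    rw [hr]; exact hK.of_isClosed_subset hC hs
  rw [← isCompact_univ_iff, Khat.isEmbedding_co.isCompact_iff, Set.image_univ]
  exact hcomp

instance : T2Space (Khat T) := Khat.isEmbedding_co.t2Space

instance : SecondCountableTopology (Khat T) := by
  have : Countable S := T.countable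
  exact Khat.isEmbedding_co.secondCountableTopology

instance : TopologicalSpace.MetrizableSpace (Khat T) :=
  TopologicalSpace.metrizableSpace_of_t3_secondCountable _

variable (T) in
/-- truncation on the inverse limit -/
def trK (n : ℕ) : C(Khat T, Khat T) where
  toFun x := iota T (x.co n)
  continuous_toFun :=
    (continuous_of_discreteTopology (f := iota T)).comp (Khat.continuous_co n)

theorem trK_apply (n : ℕ) (x : Khat T) : trK T n x = iota T (x.co n) := rfl

theorem trK_iota (n : ℕ) (z : S) : trK T n (iota T z) = iota T (T.tr n z) := rfl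

theorem trK_co_of_le {m n : ℕ} (h : m ≤ n) (x : Khat T) : (trK T n x).co m = x.co m := by
  rw [trK_apply, x.iota_co_eq_of_le h]

theorem range_trK_finite (n : ℕ) : (Set.range (trK T n)).Finite := by
  have h : Set.range (trK T n) ⊆ (iota T) '' (Set.range (T.tr n)) := by
    rintro _ ⟨x, rfl⟩
    exact ⟨x.co n, ⟨x.co n, x.tr_co_self n⟩, rfl⟩
  exact ((T.fin n).image _).subset h

theorem tendsto_trK (x : Khat T) : Tendsto (fun n => trK T n x) atTop (𝓝 x) := by
  intro U hU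
  obtain ⟨n, hn⟩ := x.exists_cyl hU
  rw [mem_map, mem_atTop_sets]
  exact ⟨n, fun m hm => hn _ (trK_co_of_le hm x)⟩

theorem dense_iota : DenseRange (iota T) := by
  intro x
  exact mem_closure_of_tendsto (tendsto_trK x)
    (Eventually.of_forall (fun n => ⟨x.co n, rfl⟩))

/-- Uniform approximation by cylinder functions. -/
theorem unif_trK (Φ : C(Khat T, ℝ)) {ε : ℝ} (hε : 0 < ε) :
    ∃ n₀, ∀ n, n₀ ≤ n → ∀ x, |Φ x - Φ (trK T n x)| ≤ ε := by
  have h1 : ∀ x : Khat T, ∃ n, ∀ y : Khat T, y.co n = x.co n → |Φ y - Φ x| < ε / 2 := by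
    intro x
    have hU : {y : Khat T | |Φ y - Φ x| < ε / 2} ∈ 𝓝 x := by
      have hc : Continuous (fun y : Khat T => |Φ y - Φ x|) := by fun_prop
      refine (isOpen_lt hc continuous_const).mem_nhds ?_
      simp [hε]
    exact x.exists_cyl hU
  choose N hN using h1
  obtain ⟨t, ht⟩ := isCompact_univ.elim_finite_subcover
    (fun x : Khat T => {y : Khat T | y.co (N x) = x.co (N x)})
    (fun x => Khat.isOpen_cyl _ _) (fun x _ => mem_iUnion.2 ⟨x, rfl⟩)
  refine ⟨t.sup N, fun n hn y => ?_⟩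
  obtain ⟨x, hx⟩ := mem_iUnion.1 (ht (mem_univ y))
  obtain ⟨hxt, hyx⟩ := mem_iUnion.1 hx
  have hle : N x ≤ n := (Finset.le_sup hxt).trans hn
  have hyx' : y.co (N x) = x.co (N x) := hyx
  have a1 := hN x y hyx'
  have a2 := hN x (trK T n y) (by rw [trK_co_of_le hle, hyx'])
  have : Φ y - Φ (trK T n y) = (Φ y - Φ x) - (Φ (trK T n y) - Φ x) := by ring
  rw [this]
  calc |(Φ y - Φ x) - (Φ (trK T n y) - Φ x)| ≤ |Φ y - Φ x| + |Φ (trK T n y) - Φ x| := abs_sub _ _
    _ ≤ ε := by linarith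

theorem norm_sub_comp_trK (Φ : C(Khat T, ℝ)) {ε : ℝ} (hε : 0 < ε) :
    ∃ n₀, ∀ n, n₀ ≤ n → ‖Φ - Φ.comp (trK T n)‖ ≤ ε := by
  obtain ⟨n₀, h⟩ := unif_trK Φ hε
  refine ⟨n₀, fun n hn => ?_⟩
  rw [ContinuousMap.norm_le _ hε.le]
  intro x
  exact h n hn x

/-- two continuous functions agreeing on `S` are equal -/
theorem ext_iota {Φ Ψ : C(Khat T, ℝ)} (h : ∀ z, Φ (iota T z) = Ψ (iota T z)) : Φ = Ψ := by
  apply ContinuousMap.ext
  have := dense_iota (T := T) |>.equalizer Φ.continuous Ψ.continuous (funext h)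
  exact fun x => congrFun this x

theorem norm_le_of_iota {Φ : C(Khat T, ℝ)} {M : ℝ} (h : ∀ z, |Φ (iota T z)| ≤ M) (hM : 0 ≤ M) :
    ‖Φ‖ ≤ M := by
  rw [ContinuousMap.norm_le _ hM]
  have hcl : IsClosed {x : Khat T | ‖Φ x‖ ≤ M} := isClosed_le (by fun_prop) continuous_const
  intro x
  have : x ∈ closure (Set.range (iota T)) := dense_iota x
  have h2 : closure (Set.range (iota T)) ⊆ {x : Khat T | ‖Φ x‖ ≤ M} := by
    apply closure_minimal _ hcl
    rintro _ ⟨z, rfl⟩
    exact h z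
  exact h2 this

theorem UC_iota (Φ : C(Khat T, ℝ)) : UC T (fun z => Φ (iota T z)) := by
  intro ε hε
  obtain ⟨n₀, h⟩ := unif_trK Φ hε
  refine ⟨n₀, fun n hn z => ?_⟩
  have := h n hn (iota T z)
  rwa [trK_iota] at this

theorem UC.exists_ext {φ : S → ℝ} (h : UC T φ) :
    ∃ Φ : C(Khat T, ℝ), ∀ z, Φ (iota T z) = φ z := by
  have hlim : ∀ x : Khat T, ∃ a, Tendsto (fun n => φ (x.co n)) atTop (𝓝 a) := fun x =>
    cauchySeq_tendsto_of_complete (h.cauchy x)
  choose F hF using hlim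
  have hunif : ∀ ε > 0, ∃ n₀, ∀ n, n₀ ≤ n → ∀ x : Khat T, |F x - φ (x.co n)| ≤ ε := by
    intro ε hε
    obtain ⟨n₀, hn⟩ := h ε hε
    refine ⟨n₀, fun n hnn x => ?_⟩
    have h1 : Tendsto (fun m => |φ (x.co m) - φ (x.co n)|) atTop (𝓝 |F x - φ (x.co n)|) :=
      ((hF x).sub_const _).abs
    refine le_of_tendsto h1 ?_
    filter_upwards [eventually_ge_atTop n] with m hm
    have := hn n hnn (x.co m)
    rwa [x.tr_co hm] at this
  have hcont : Continuous F := by
    apply continuous_of_uniform_approx_of_continuous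
    intro u hu
    obtain ⟨ε, hε, hεu⟩ := Metric.mem_uniformity_dist.1 hu
    obtain ⟨n₀, hn⟩ := hunif (ε / 2) (by positivity)
    refine ⟨fun x => φ (x.co n₀), ?_, fun x => hεu ?_⟩
    · exact (continuous_of_discreteTopology (f := φ)).comp (Khat.continuous_co n₀)
    · rw [Real.dist_eq]
      have := hn n₀ le_rfl x
      linarith
  refine ⟨⟨F, hcont⟩, fun z => ?_⟩
  obtain ⟨n, hn⟩ := T.ex z
  have h2 : Tendsto (fun m => φ ((iota T z).co m)) atTop (𝓝 (φ z)) := by
    refine tendsto_const_nhds.congr' ?_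
    filter_upwards [eventually_ge_atTop n] with m hm
    rw [iota_co, T.tr_of_le hm hn]
  exact tendsto_nhds_unique (hF (iota T z)) h2

/-- the extension of a `UC` function -/
noncomputable def extK (φ : S → ℝ) (h : UC T φ) : C(Khat T, ℝ) := h.exists_ext.choose

theorem extK_iota (φ : S → ℝ) (h : UC T φ) (z : S) : extK φ h (iota T z) = φ z :=
  h.exists_ext.choose_spec z

theorem extK_comp_iota (φ : S → ℝ) (h : UC T φ) : (fun z => extK φ h (iota T z)) = φ :=
  funext (extK_iota φ h)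

theorem extK_of_iota (Φ : C(Khat T, ℝ)) (h : UC T (fun z => Φ (iota T z))) :
    extK (fun z => Φ (iota T z)) h = Φ :=
  ext_iota (fun z => extK_iota _ h z)

theorem norm_extK_le (φ : S → ℝ) (h : UC T φ) {M : ℝ} (hM : 0 ≤ M) (hb : ∀ z, |φ z| ≤ M) :
    ‖extK φ h‖ ≤ M :=
  norm_le_of_iota (fun z => by rw [extK_iota]; exact hb z) hM

theorem le_norm_extK (φ : S → ℝ) (h : UC T φ) (z : S) : |φ z| ≤ ‖extK φ h‖ := by
  have := ContinuousMap.norm_coe_le_norm (extK φ h) (iota T z)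
  rwa [extK_iota] at this

/-! ### Lifting Markov operators -/

/-- the lifted operator -/
noncomputable def lift (G : (S → ℝ) →ₗ[ℝ] (S → ℝ)) (h : Mk T G) :
    C(Khat T, ℝ) →L[ℝ] C(Khat T, ℝ) :=
  LinearMap.mkContinuous
    { toFun := fun Φ => extK (G (fun z => Φ (iota T z))) (h.UC (UC_iota Φ))
      map_add' := by
        intro Φ Ψ
        apply ext_iota
        intro z
        rw [ContinuousMap.add_apply, extK_iota, extK_iota, extK_iota]
        have : (fun z => (Φ + Ψ) (iota T z)) = (fun z => Φ (iota T z)) + (fun z => Ψ (iota T z)) := by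
          ext; simp
        rw [this, map_add]
        rfl
      map_smul' := by
        intro c Φ
        apply ext_iota
        intro z
        rw [RingHom.id_apply, ContinuousMap.smul_apply, extK_iota, extK_iota]
        have : (fun z => (c • Φ) (iota T z)) = c • (fun z => Φ (iota T z)) := by
          ext; simp
        rw [this, map_smul]
        rfl } 1 (by
      intro Φ
      rw [one_mul]
      exact norm_extK_le (G (fun z => Φ (iota T z))) (h.UC (UC_iota Φ)) (norm_nonneg _)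
        (fun z => h.abs_le_const (fun w => ContinuousMap.norm_coe_le_norm Φ (iota T w)) z))

theorem lift_iota (G : (S → ℝ) →ₗ[ℝ] (S → ℝ)) (h : Mk T G) (Φ : C(Khat T, ℝ)) (z : S) :
    lift G h Φ (iota T z) = G (fun z => Φ (iota T z)) z :=
  extK_iota (G (fun z => Φ (iota T z))) (h.UC (UC_iota Φ)) z

theorem lift_comp_iota (G : (S → ℝ) →ₗ[ℝ] (S → ℝ)) (h : Mk T G) (Φ : C(Khat T, ℝ)) :
    (fun z => lift G h Φ (iota T z)) = G (fun z => Φ (iota T z)) :=
  funext (lift_iota G h Φ)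

theorem norm_lift_le (G : (S → ℝ) →ₗ[ℝ] (S → ℝ)) (h : Mk T G) : ‖lift G h‖ ≤ 1 :=
  LinearMap.mkContinuous_norm_le _ zero_le_one _

theorem norm_lift_apply_le (G : (S → ℝ) →ₗ[ℝ] (S → ℝ)) (h : Mk T G) (Φ : C(Khat T, ℝ)) :
    ‖lift G h Φ‖ ≤ ‖Φ‖ := by
  have := (lift G h).le_of_opNorm_le (norm_lift_le G h) Φ
  simpa using this

theorem lift_extK (G : (S → ℝ) →ₗ[ℝ] (S → ℝ)) (h : Mk T G) (φ : S → ℝ) (hφ : UC T φ) :
    lift G h (extK φ hφ) = extK (G φ) (h.UC hφ) := by
  apply ext_iota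
  intro z
  rw [lift_iota, extK_iota, extK_comp_iota]

theorem lift_comp_trK (G : (S → ℝ) →ₗ[ℝ] (S → ℝ)) (h : Mk T G) (Φ : C(Khat T, ℝ)) (n : ℕ)
    (x : Khat T) : lift G h (Φ.comp (trK T n)) x = lift G h Φ (trK T n x) := by
  have h1 : lift G h (Φ.comp (trK T n)) = (lift G h Φ).comp (trK T n) := by
    apply ext_iota
    intro z
    rw [lift_iota, ContinuousMap.comp_apply, trK_iota, lift_iota, ← h.comm n _ z]
    rfl
  rw [h1]
  rfl

/-- commuting operators lift to commuting operators -/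
theorem lift_mul_comm (G H : (S → ℝ) →ₗ[ℝ] (S → ℝ)) (hG : Mk T G) (hH : Mk T H)
    (hc : ∀ φ, G (H φ) = H (G φ)) : lift G hG * lift H hH = lift H hH * lift G hG := by
  ext1 Φ
  apply ext_iota
  intro z
  show lift G hG (lift H hH Φ) (iota T z) = lift H hH (lift G hG Φ) (iota T z)
  rw [lift_iota, lift_comp_iota, lift_iota, lift_comp_iota, hc]

/-- the resolvent identity passes to the lifted operators -/
theorem lift_res (G H : (S → ℝ) →ₗ[ℝ] (S → ℝ)) (hG : Mk T G) (hH : Mk T H)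
    (hres : ∀ φ, (2 : ℝ) • G φ - G (H φ) = H φ) :
    lift G hG * (2 - lift H hH) = lift H hH := by
  ext1 Φ
  apply ext_iota
  intro z
  have h1 : (lift G hG * (2 - lift H hH)) Φ = (2 : ℝ) • lift G hG Φ - lift G hG (lift H hH Φ) := by
    have e1 : (2 - lift H hH) Φ = (2 : ℝ) • Φ - lift H hH Φ := by
      have h2 : (2 : C(Khat T, ℝ) →L[ℝ] C(Khat T, ℝ)) = (2 : ℝ) • 1 := by
        ext1 Ψ
        rw [← one_add_one_eq_two, two_smul]
      rw [h2]
      rfl
    calc (lift G hG * (2 - lift H hH)) Φ = lift G hG ((2 - lift H hH) Φ) := rfl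
      _ = (2 : ℝ) • lift G hG Φ - lift G hG (lift H hH Φ) := by rw [e1, map_sub, map_smul]
  rw [h1, ContinuousMap.sub_apply, ContinuousMap.smul_apply, lift_iota, lift_iota, lift_iota,
    lift_comp_iota]
  have h3 := congrFun (hres (fun z => Φ (iota T z))) z
  simpa using h3

/-- strong continuity -/
theorem tendsto_lift (G : ℕ → (S → ℝ) →ₗ[ℝ] (S → ℝ)) (h : ∀ p, Mk T (G p))
    (ht : ∀ (φ : S → ℝ) z, Tendsto (fun p => G p φ z) atTop (𝓝 (φ z))) (Φ : C(Khat T, ℝ)) :
    Tendsto (fun p => lift (G p) (h p) Φ) atTop (𝓝 Φ) := by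
  rw [Metric.tendsto_atTop]
  intro ε hε
  obtain ⟨n, hn⟩ := norm_sub_comp_trK Φ (show 0 < ε / 4 by positivity)
  have hn := hn n le_rfl
  -- uniform convergence on the finite set
  have h1 : ∀ᶠ p in atTop, ∀ w ∈ Set.range (T.tr n),
      |G p (fun z => Φ (iota T z)) w - Φ (iota T w)| ≤ ε / 4 := by
    rw [Filter.eventually_all_finite (T.fin n)]
    intro w _
    have h2 := ht (fun z => Φ (iota T z)) w
    have h3 := (Metric.tendsto_atTop.1 h2) (ε / 4) (by positivity)
    obtain ⟨N, hN⟩ := h3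
    filter_upwards [eventually_ge_atTop N] with p hp
    have := hN p hp
    rw [Real.dist_eq] at this
    exact this.le
  obtain ⟨N, hN⟩ := eventually_atTop.1 h1
  refine ⟨N, fun p hp => ?_⟩
  rw [dist_eq_norm]
  have e1 : ‖lift (G p) (h p) (Φ.comp (trK T n)) - Φ.comp (trK T n)‖ ≤ ε / 4 := by
    refine norm_le_of_iota (fun z => ?_) (by positivity)
    rw [ContinuousMap.sub_apply, lift_comp_trK, ContinuousMap.comp_apply, trK_iota, lift_iota]
    exact hN p hp _ ⟨z, rfl⟩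
  have e2 : ‖lift (G p) (h p) (Φ - Φ.comp (trK T n))‖ ≤ ε / 4 :=
    (norm_lift_apply_le _ _ _).trans hn
  have e3 : lift (G p) (h p) Φ - Φ = lift (G p) (h p) (Φ - Φ.comp (trK T n)) +
      (lift (G p) (h p) (Φ.comp (trK T n)) - Φ.comp (trK T n)) - (Φ - Φ.comp (trK T n)) := by
    rw [map_sub]
    abel
  rw [e3]
  calc ‖lift (G p) (h p) (Φ - Φ.comp (trK T n)) +
      (lift (G p) (h p) (Φ.comp (trK T n)) - Φ.comp (trK T n)) - (Φ - Φ.comp (trK T n))‖
      ≤ ‖lift (G p) (h p) (Φ - Φ.comp (trK T n))‖ +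
        ‖lift (G p) (h p) (Φ.comp (trK T n)) - Φ.comp (trK T n)‖ + ‖Φ - Φ.comp (trK T n)‖ :=
        (norm_sub_le _ _).trans (by gcongr; exact norm_add_le _ _)
    _ ≤ ε / 4 + ε / 4 + ε / 4 := by gcongr
    _ < ε := by linarith

/-- the tail estimate -/
theorem lift_tail (G : (S → ℝ) →ₗ[ℝ] (S → ℝ)) (h : Mk T G) (x : Khat T) (n : ℕ) {d : ℝ}
    (hd : ∀ m, G (Set.indicator {w | T.tr n w ≠ w} (fun _ => 1)) (x.co m) ≤ d)
    (Ψ : C(Khat T, ℝ)) :
    |lift G h Ψ x - lift G h Ψ (trK T n x)| ≤ 2 * ‖Ψ‖ * d := by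
  rw [← lift_comp_trK, ← ContinuousMap.sub_apply, ← map_sub]
  set D := Ψ - Ψ.comp (trK T n) with hD
  have h1 : ∀ w, |D (iota T w)| ≤
      ((2 * ‖Ψ‖) • Set.indicator {w | T.tr n w ≠ w} (fun _ => (1 : ℝ))) w := by
    intro w
    rw [hD, ContinuousMap.sub_apply, ContinuousMap.comp_apply, trK_iota, Pi.smul_apply,
      smul_eq_mul]
    by_cases hw : T.tr n w = w
    · rw [hw, sub_self, abs_zero]
      exact mul_nonneg (by positivity) (Set.indicator_nonneg (fun _ _ => zero_le_one) _)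
    · rw [Set.indicator_of_mem (show w ∈ {w | T.tr n w ≠ w} from hw), mul_one]
      have a1 := ContinuousMap.norm_coe_le_norm Ψ (iota T w)
      have a2 := ContinuousMap.norm_coe_le_norm Ψ (iota T (T.tr n w))
      rw [Real.norm_eq_abs] at a1 a2
      calc |Ψ (iota T w) - Ψ (iota T (T.tr n w))| ≤ |Ψ (iota T w)| + |Ψ (iota T (T.tr n w))| :=
            abs_sub _ _
        _ ≤ 2 * ‖Ψ‖ := by linarith
  have h2 : ∀ m, |lift G h D (trK T m x)| ≤ 2 * ‖Ψ‖ * d := by
    intro m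
    rw [trK_apply, lift_iota]
    refine (h.abs_le h1 _).trans ?_
    rw [map_smul, Pi.smul_apply, smul_eq_mul]
    exact mul_le_mul_of_nonneg_left (hd m) (by positivity)
  have h3 : Tendsto (fun m => |lift G h D (trK T m x)|) atTop (𝓝 |lift G h D x|) :=
    (((lift G h D).continuous.tendsto x).comp (tendsto_trK x)).abs
  exact le_of_tendsto h3 (Eventually.of_forall h2)

end Top

end Pool.CE74
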